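import Pool.Agent.H1.IsoD

namespace Pool.Agent.Results.MP_42a974_an.Broken

open Metric Set MeasureTheory Real Pool.Agent.H1.Iso

open Classical in
/-- Logarithmic energy: the integral of `log (1 / |x - y|)` for `μ × μ`; it is `+∞` when the
diagonal carries mass or the kernel is not integrable (used for compactly supported `μ`). -/
noncomputable def energy {n : ℕ} (μ : Measure (EuclideanSpace ℝ (Fin n))) : EReal :=
  if (∀ᵐ p ∂μ.prod μ, p.1 ≠ p.2) ∧ Integrable (fun p : EuclideanSpace ℝ (Fin n) ×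
      EuclideanSpace ℝ (Fin n) => log (1 / ‖p.1 - p.2‖)) (μ.prod μ) then
    ((∫ p, log (1 / ‖p.1 - p.2‖) ∂μ.prod μ : ℝ) : EReal) else ⊤

/-- Logarithmic capacity `exp (- inf I)` over Borel probability measures carried by `K`. -/
noncomputable def cap {n : ℕ} (K : Set (EuclideanSpace ℝ (Fin n))) : ENNReal :=
  EReal.exp (-⨅ (μ : Measure (EuclideanSpace ℝ (Fin n))) (_ : IsProbabilityMeasure μ)
    (_ : μ Kᶜ = 0), energy μ)

theorem result : ∀ n ∈ ({3, 4} : Set ℕ), ∃ K : Set (EuclideanSpace ℝ (Fin n)),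
    IsCompact K ∧ diam K = 2 ∧ cap (closedBall (0 : EuclideanSpace ℝ (Fin n)) 1) < cap K := by
  have key : ∀ n, (∃ K : Set (E n), IsCompact K ∧ diam K = 2 ∧ ∃ (μ : Measure (E n)) (c : ℝ),
      IsProbabilityMeasure μ ∧ μ Kᶜ = 0 ∧ (∀ᵐ p ∂μ.prod μ, p.1 ≠ p.2) ∧
      Integrable (fun p : E n × E n => log ‖p.1 - p.2‖) (μ.prod μ) ∧
      c < ∫ p, log ‖p.1 - p.2‖ ∂μ.prod μ ∧
      ∀ ν : Measure (E n), IsProbabilityMeasure ν → ν (closedBall 0 1)ᶜ = 0 →
        (∀ᵐ p ∂ν.prod ν, p.1 ≠ p.2) →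
        Integrable (fun p : E n × E n => log ‖p.1 - p.2‖) (ν.prod ν) →
        ∫ p, log ‖p.1 - p.2‖ ∂ν.prod ν ≤ c) → ∃ K : Set (E n),
      IsCompact K ∧ diam K = 2 ∧ cap (closedBall (0 : E n) 1) < cap K := by
    rintro n ⟨K, hK, hd, μ, c, p1, p2, p3, p4, p5, h⟩
    refine ⟨K, hK, hd, EReal.exp_strictMono (EReal.neg_lt_neg_iff.2 ?_)⟩
    refine ((iInf₂_le μ p1).trans (iInf_le _ p2)).trans_lt (lt_of_lt_of_le (b := ((-c : ℝ) : EReal))
      ?_ (le_iInf fun ν => le_iInf fun q1 => le_iInf fun q2 => ?_))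
    · simp only [energy, one_div, log_inv, integral_neg]
      rw [if_pos ⟨p3, by simpa using p4.neg⟩]
      exact EReal.coe_lt_coe_iff.2 (neg_lt_neg p5)
    · simp only [energy, one_div, log_inv, integral_neg]
      split_ifs with e
      · exact EReal.coe_le_coe_iff.2 (neg_le_neg (h ν q1 q2 e.1 (by simpa using e.2.neg)))
      · exact le_top
  rintro n (rfl | rfl)
  · exact key 3 (main (k := 1) le_rfl ![1000, 961, 849, 674, 458, 233, 56] ![53, 10, 10, 9, 8, 6, 4]
      ![![0], ![391], ![760], ![1093], ![1368], ![1574], ![1698]]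
      ![![2000, 1999, 1999, 1999, 1999, 1999, 1999], ![1999, 1922, 1847, 1779, 1722, 1680, 1656],
        ![1999, 1847, 1698, 1558, 1441, 1354, 1303], ![1999, 1779, 1558, 1348, 1164, 1026, 948],
        ![1999, 1722, 1441, 1164, 916, 721, 610], ![1999, 1680, 1354, 1026, 721, 466, 314],
        ![1999, 1656, 1303, 948, 610, 314, 112]]
      ![![0, 392, 774, 1140, 1471, 1750, 1942], ![392, 0, 385, 758, 1098, 1389, 1589],
        ![774, 385, 0, 376, 722, 1020, 1228], ![1140, 758, 376, 0, 349, 652, 864],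
        ![1471, 1098, 722, 349, 0, 305, 520], ![1750, 1389, 1020, 652, 305, 0, 216],
        ![1942, 1589, 1228, 864, 520, 216, 0]] 1944 200 0 rfl (by decide) (by decide)
      (by decide +kernel) (by decide +kernel) (by decide +kernel))
  · exact key 4 (main (k := 2) one_le_two ![1000, 490, 490] ![52, 24, 24]
      ![![0, 0], ![871, 1010], ![-871, 1010]]
      ![![2000, 1999, 1999], ![1999, 980, 1998], ![1999, 1998, 980]]
      ![![0, 1427, 1427], ![1427, 0, 1742], ![1427, 1742, 0]] 2580 10 0 rfl (by decide) (by decide)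
      (by decide +kernel) (by decide +kernel) (by decide +kernel))

end Pool.Agent.Results.MP_42a974_an.Broken
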